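import Pool.Agent.Helper11_ProdFree.Pointwise

/-!
# Integration of the pointwise inequality
-/

namespace Pool.Agent.Helper11_ProdFree

open MeasureTheory Set

theorem lintegral_exp_Ici (x : ℝ) :
    ∫⁻ t in Ici x, ENNReal.ofReal (Real.exp (-t)) = ENNReal.ofReal (Real.exp (-x)) := by
  rw [setLIntegral_congr (Ioi_ae_eq_Ici (a := x)).symm]
  rw [← integral_exp_neg_Ioi x]
  rw [ofReal_integral_eq_lintegral_ofReal]
  · exact (integrableOn_exp_neg_Ioi x)
  · exact Filter.Eventually.of_forall fun t => (Real.exp_pos _).le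

theorem layer (B : Set ℝ) :
    ∫⁻ x in B, ENNReal.ofReal (Real.exp (-x)) =
      ∫⁻ t, ENNReal.ofReal (Real.exp (-t)) * volume (B ∩ Iic t) := by
  have h1 : ∀ x : ℝ, ENNReal.ofReal (Real.exp (-x)) =
      ∫⁻ t, (if x ≤ t then ENNReal.ofReal (Real.exp (-t)) else 0) := by
    intro x
    rw [← lintegral_exp_Ici x, ← lintegral_indicator measurableSet_Ici]
    congr 1
  have h2 : ∀ t : ℝ, ENNReal.ofReal (Real.exp (-t)) * volume (B ∩ Iic t) =
      ∫⁻ x in B, (if x ≤ t then ENNReal.ofReal (Real.exp (-t)) else 0) := by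
    intro t
    have : (fun x : ℝ => (if x ≤ t then ENNReal.ofReal (Real.exp (-t)) else 0)) =
        (Iic t).indicator (fun _ => ENNReal.ofReal (Real.exp (-t))) := by
      funext x
      simp [Set.indicator]
    rw [this, lintegral_indicator_const measurableSet_Iic, Measure.restrict_apply measurableSet_Iic,
      Set.inter_comm]
  calc ∫⁻ x in B, ENNReal.ofReal (Real.exp (-x))
      = ∫⁻ x in B, ∫⁻ t, (if x ≤ t then ENNReal.ofReal (Real.exp (-t)) else 0) := by
        apply lintegral_congr
        intro x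
        exact h1 x
    _ = ∫⁻ t, ∫⁻ x in B, (if x ≤ t then ENNReal.ofReal (Real.exp (-t)) else 0) := by
        apply lintegral_lintegral_swap
        apply Measurable.aemeasurable
        apply Measurable.ite (measurableSet_le measurable_fst measurable_snd)
        · fun_prop
        · fun_prop
    _ = _ := by
        apply lintegral_congr
        intro t
        exact (h2 t).symm

theorem lintegral_exp_mul_id :
    ∫⁻ t : ℝ, ENNReal.ofReal (Real.exp (-t)) * ENNReal.ofReal t = 1 := by
  have h0 : ∫⁻ t : ℝ, ENNReal.ofReal (Real.exp (-t)) * ENNReal.ofReal t =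
      ∫⁻ t in Ioi (0 : ℝ), ENNReal.ofReal (Real.exp (-t) * t ^ ((2 : ℝ) - 1)) := by
    rw [← lintegral_indicator measurableSet_Ioi]
    apply lintegral_congr
    intro t
    by_cases ht : 0 < t
    · rw [Set.indicator_of_mem (show t ∈ Ioi (0 : ℝ) from ht)]
      rw [ENNReal.ofReal_mul (Real.exp_pos _).le]
      norm_num
    · rw [Set.indicator_of_notMem (by simpa using ht)]
      rw [ENNReal.ofReal_of_nonpos (not_lt.1 ht), mul_zero]
  rw [h0, ← ofReal_integral_eq_lintegral_ofReal (Real.GammaIntegral_convergent (by norm_num)),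
    ← Real.Gamma_eq_integral (by norm_num), Real.Gamma_two]
  · simp
  · rw [Filter.EventuallyLE, ae_restrict_iff' measurableSet_Ioi]
    refine Filter.Eventually.of_forall fun t ht => ?_
    have : (0 : ℝ) < t := ht
    simp only [Pi.zero_apply]
    positivity

/-- The weighted measure of a compact sum-free set. -/
theorem weighted_le {B : Set ℝ} (hB : IsCompact B) (hsf : ∀ x ∈ B, ∀ y ∈ B, x + y ∉ B)
    {b : ℝ} (hb : b ∈ B) (hb0 : 0 < b) (hbm : ∀ x ∈ B, b ≤ x) :
    (ENNReal.ofReal (Real.exp b) + 1 + ENNReal.ofReal (Real.exp (-b))) *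
      ∫⁻ x in B, ENNReal.ofReal (Real.exp (-x)) ≤ 1 := by
  set M := ∫⁻ x in B, ENNReal.ofReal (Real.exp (-x)) with hM
  have hlayer := layer B
  rw [← hM] at hlayer
  have hmeas : Measurable fun t : ℝ => volume (B ∩ Iic t) := by
    apply Monotone.measurable
    intro s t hst
    exact measure_mono (inter_subset_inter_right _ (Iic_subset_Iic.2 hst))
  have hmeas2 : ∀ a : ℝ, Measurable fun t : ℝ => volume (B ∩ Iic (t + a)) := by
    intro a
    exact hmeas.comp (measurable_id.add_const a)
  have hshift : ∀ a : ℝ, ∫⁻ t, ENNReal.ofReal (Real.exp (-t)) * volume (B ∩ Iic (t + a)) =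
      ENNReal.ofReal (Real.exp a) * M := by
    intro a
    rw [hlayer]
    have h1 := lintegral_add_right_eq_self (μ := (volume : Measure ℝ))
      (fun t : ℝ => ENNReal.ofReal (Real.exp (-t)) * volume (B ∩ Iic t)) a
    rw [← h1, ← lintegral_const_mul]
    · apply lintegral_congr
      intro t
      rw [← mul_assoc, ← ENNReal.ofReal_mul (Real.exp_pos _).le, ← Real.exp_add]
      congr 3
      ring
    · exact ((by fun_prop : Measurable fun t : ℝ => ENNReal.ofReal (Real.exp (-(t + a))))).mul
        (hmeas2 a)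
  have hexpm : Measurable fun t : ℝ => ENNReal.ofReal (Real.exp (-t)) := by fun_prop
  calc (ENNReal.ofReal (Real.exp b) + 1 + ENNReal.ofReal (Real.exp (-b))) * M
      = ENNReal.ofReal (Real.exp b) * M + ENNReal.ofReal (Real.exp 0) * M +
          ENNReal.ofReal (Real.exp (-b)) * M := by
        rw [Real.exp_zero, ENNReal.ofReal_one]
        ring
    _ = ∫⁻ t, ENNReal.ofReal (Real.exp (-t)) *
          (volume (B ∩ Iic (t + b)) + volume (B ∩ Iic (t + 0)) + volume (B ∩ Iic (t + -b))) := by
        rw [← hshift b, ← hshift 0, ← hshift (-b)]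
        simp_rw [mul_add]
        rw [lintegral_add_left (μ := volume)
            (f := fun t : ℝ => ENNReal.ofReal (Real.exp (-t)) * volume (B ∩ Iic (t + b)) +
              ENNReal.ofReal (Real.exp (-t)) * volume (B ∩ Iic (t + 0)))
            ((hexpm.mul (hmeas2 b)).add (hexpm.mul (hmeas2 0))),
          lintegral_add_left (μ := volume)
            (f := fun t : ℝ => ENNReal.ofReal (Real.exp (-t)) * volume (B ∩ Iic (t + b)))
            (hexpm.mul (hmeas2 b))]
    _ ≤ ∫⁻ t : ℝ, ENNReal.ofReal (Real.exp (-t)) * ENNReal.ofReal t := by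
        apply lintegral_mono
        intro t
        have := pointwise hB hsf hb hb0 hbm t
        simp only
        rw [add_zero, ← sub_eq_add_neg]
        gcongr
    _ = 1 := lintegral_exp_mul_id

end Pool.Agent.Helper11_ProdFree
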