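import Mathlib

/-!
# The set of distances between two disjoint compact subsets of the line

For compact sets `X`, `Y` of reals whose common minimum belongs to `X` and whose common maximum
belongs to `Y`, the set of distances `|x - y|` has measure at least `|X| + |Y|`.
-/

namespace Pool.Agent.Helper11_ProdFree

open MeasureTheory Set

/-- The set of distances between the points of `X` and the points of `Y`. -/
def dists (X Y : Set ℝ) : Set ℝ := Set.image2 (fun x y => |x - y|) X Y

theorem dists_comm (X Y : Set ℝ) : dists X Y = dists Y X := by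
  unfold dists
  rw [Set.image2_swap]
  congr 1
  funext x y
  exact abs_sub_comm _ _

theorem isCompact_dists {X Y : Set ℝ} (hX : IsCompact X) (hY : IsCompact Y) :
    IsCompact (dists X Y) := by
  have h := (hX.prod hY).image (f := fun p : ℝ × ℝ => |p.1 - p.2|) (by fun_prop)
  have e : dists X Y = (fun p : ℝ × ℝ => |p.1 - p.2|) '' (X ×ˢ Y) := by
    unfold dists
    rw [← Set.image_prod]
  rw [e]
  exact h

theorem dists_mono {X X' Y Y' : Set ℝ} (hX : X' ⊆ X) (hY : Y' ⊆ Y) :
    dists X' Y' ⊆ dists X Y := Set.image2_subset hX hY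

/-- One-dimensional Brunn-Minkowski inequality for differences of compact sets. -/
theorem volume_add_le_sub {P Q : Set ℝ} (hP : IsCompact P) (hQ : IsCompact Q)
    (hPn : P.Nonempty) (hQn : Q.Nonempty) :
    volume P + volume Q ≤ volume (Set.image2 (fun x y => y - x) P Q) := by
  obtain ⟨p, hp, hpm⟩ := hP.exists_isLeast hPn
  obtain ⟨q, hq, hqm⟩ := hQ.exists_isLeast hQn
  have hS1 : volume ((fun x => q - x) '' P) = volume P := by
    have h := (Measure.measurePreserving_sub_left (volume : Measure ℝ) q).measure_preimage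
      (s := (fun x => q - x) '' P)
      ((hP.image (by fun_prop)).measurableSet.nullMeasurableSet)
    rw [← h]
    congr 1
    ext x
    simp
  have hS2 : volume ((fun y => y - p) '' Q) = volume Q := by
    have h := (measurePreserving_sub_right (volume : Measure ℝ) p).measure_preimage
      (s := (fun y => y - p) '' Q)
      ((hQ.image (by fun_prop)).measurableSet.nullMeasurableSet)
    rw [← h]
    congr 1
    ext x
    simp
  have hm2 : MeasurableSet ((fun y => y - p) '' Q) := (hQ.image (by fun_prop)).measurableSet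
  have hdis : AEDisjoint volume ((fun x => q - x) '' P) ((fun y => y - p) '' Q) := by
    have hsub : ((fun x => q - x) '' P) ∩ ((fun y => y - p) '' Q) ⊆ {q - p} := by
      rintro z ⟨⟨x, hx, rfl⟩, ⟨y, hy, hxy⟩⟩
      have h1 := hpm hx
      have h2 := hqm hy
      simp only [Set.mem_singleton_iff] at *
      linarith
    exact measure_mono_null hsub (by simp)
  calc volume P + volume Q
      = volume (((fun x => q - x) '' P) ∪ ((fun y => y - p) '' Q)) := by
        rw [measure_union₀ hm2.nullMeasurableSet hdis, hS1, hS2]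
    _ ≤ _ := by
        apply measure_mono
        rintro z (⟨x, hx, rfl⟩ | ⟨y, hy, rfl⟩)
        · exact ⟨x, hx, q, hq, rfl⟩
        · exact ⟨p, hp, y, hy, rfl⟩

/-- The inequality for two compact sets with opposite first and last colours. -/
theorem volume_add_le_dists_aux (ε : ℝ) (hε : 0 < ε) (k : ℕ) :
    ∀ X Y : Set ℝ, IsCompact X → IsCompact Y → (∀ x ∈ X, ∀ y ∈ Y, ε ≤ |x - y|) →
      ∀ m ∈ X, ∀ M ∈ Y, (∀ y ∈ Y, m ≤ y) → (∀ x ∈ X, m ≤ x) → (∀ x ∈ X, x ≤ M) →
        (∀ y ∈ Y, y ≤ M) → M - m ≤ k * ε → volume X + volume Y ≤ volume (dists X Y) := by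
  induction k with
  | zero =>
    intro X Y _ _ hd m hm M hM h1 _ _ _ hk
    exfalso
    have h := hd m hm M hM
    have h2 := h1 M hM
    simp only [Nat.cast_zero, zero_mul] at hk
    rw [abs_of_nonpos (by linarith)] at h
    linarith
  | succ k ih =>
    intro X Y hX hY hd m hm M hM hmY hmX hMX hMY hk
    obtain ⟨y₀, hy₀, hy₀m⟩ := hY.exists_isLeast ⟨M, hM⟩
    obtain ⟨ξ, hξ, hξm⟩ := hX.exists_isGreatest ⟨m, hm⟩
    rcases le_or_gt ξ y₀ with h | h
    · -- all of `X` lies below `Y`
      have : dists X Y = Set.image2 (fun x y => y - x) X Y := by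
        unfold dists
        ext z
        constructor
        · rintro ⟨x, hx, y, hy, rfl⟩
          refine ⟨x, hx, y, hy, ?_⟩
          have h1 := hξm hx
          have h2 := hy₀m hy
          simp only
          rw [abs_of_nonpos (by linarith)]
          ring
        · rintro ⟨x, hx, y, hy, rfl⟩
          refine ⟨x, hx, y, hy, ?_⟩
          have h1 := hξm hx
          have h2 := hy₀m hy
          simp only
          rw [abs_of_nonpos (by linarith)]
          ring
      rw [this]
      exact volume_add_le_sub hX hY ⟨m, hm⟩ ⟨M, hM⟩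
    · -- peel off the first and the last run
      have hR1c : IsCompact (X ∩ Iic y₀) := hX.inter_right isClosed_Iic
      have hX2c : IsCompact (X ∩ Ici y₀) := hX.inter_right isClosed_Ici
      have hR2c : IsCompact (Y ∩ Ici ξ) := hY.inter_right isClosed_Ici
      have hY2c : IsCompact (Y ∩ Iic ξ) := hY.inter_right isClosed_Iic
      have e1 : ∀ x ∈ X ∩ Iic y₀, x ≤ y₀ - ε := by
        rintro x ⟨hx, hxy⟩
        have h1 := hd x hx y₀ hy₀
        simp only [mem_Iic] at hxy
        rw [abs_of_nonpos (by linarith)] at h1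
        linarith
      have e2 : ∀ y ∈ Y ∩ Ici ξ, ξ + ε ≤ y := by
        rintro y ⟨hy, hxy⟩
        have h1 := hd ξ hξ y hy
        simp only [mem_Ici] at hxy
        rw [abs_of_nonpos (by linarith)] at h1
        linarith
      have hmy : m ≤ y₀ := hmY y₀ hy₀
      have hMξ : ξ ≤ M := hMX ξ hξ
      have e3 : m ≤ y₀ - ε := e1 m ⟨hm, hmy⟩
      have e4 : ξ + ε ≤ M := e2 M ⟨hM, hMξ⟩
      have hinner := ih (Y ∩ Iic ξ) (X ∩ Ici y₀) hY2c hX2c
        (fun y hy x hx => by rw [abs_sub_comm]; exact hd x hx.1 y hy.1)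
        y₀ ⟨hy₀, h.le⟩ ξ ⟨hξ, h.le⟩ (fun x hx => hx.2) (fun y hy => hy₀m hy.1)
        (fun y hy => hy.2) (fun x hx => hξm hx.1) (by push_cast at hk; linarith)
      have houter := volume_add_le_sub hR1c hR2c ⟨m, hm, hmy⟩ ⟨M, hM, hMξ⟩
      have hdisj : Disjoint (Set.image2 (fun x y => y - x) (X ∩ Iic y₀) (Y ∩ Ici ξ))
          (dists (Y ∩ Iic ξ) (X ∩ Ici y₀)) := by
        rw [Set.disjoint_left]
        rintro z ⟨x, hx, y, hy, rfl⟩ ⟨y', hy', x', hx', hz⟩
        have h1 := e1 x hx
        have h2 := e2 y hy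
        have h3 : |y' - x'| ≤ ξ - y₀ := by
          rw [abs_le]
          have a1 : y' ≤ ξ := hy'.2
          have a2 : y₀ ≤ x' := hx'.2
          have a3 := hy₀m hy'.1
          have a4 := hξm hx'.1
          constructor <;> linarith
        simp only at hz
        linarith
      have hm2 : MeasurableSet (dists (Y ∩ Iic ξ) (X ∩ Ici y₀)) :=
        (isCompact_dists hY2c hX2c).measurableSet
      have hsub : (Set.image2 (fun x y => y - x) (X ∩ Iic y₀) (Y ∩ Ici ξ)) ∪
          (dists (Y ∩ Iic ξ) (X ∩ Ici y₀)) ⊆ dists X Y := by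
        apply union_subset
        · rintro z ⟨x, hx, y, hy, rfl⟩
          refine ⟨x, hx.1, y, hy.1, ?_⟩
          have h1 := e1 x hx
          have h2 := e2 y hy
          simp only
          rw [abs_of_nonpos (by linarith)]
          ring
        · rw [dists_comm X Y]
          exact dists_mono inter_subset_left inter_subset_left
      have hXle : volume X ≤ volume (X ∩ Iic y₀) + volume (X ∩ Ici y₀) := by
        refine le_trans (measure_mono ?_) (measure_union_le _ _)
        intro x hx
        rcases le_total x y₀ with h | h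
        · exact Or.inl ⟨hx, h⟩
        · exact Or.inr ⟨hx, h⟩
      have hYle : volume Y ≤ volume (Y ∩ Ici ξ) + volume (Y ∩ Iic ξ) := by
        refine le_trans (measure_mono ?_) (measure_union_le _ _)
        intro x hx
        rcases le_total ξ x with h | h
        · exact Or.inl ⟨hx, h⟩
        · exact Or.inr ⟨hx, h⟩
      calc volume X + volume Y
          ≤ (volume (X ∩ Iic y₀) + volume (X ∩ Ici y₀)) +
              (volume (Y ∩ Ici ξ) + volume (Y ∩ Iic ξ)) := add_le_add hXle hYle
        _ = (volume (X ∩ Iic y₀) + volume (Y ∩ Ici ξ)) +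
              (volume (Y ∩ Iic ξ) + volume (X ∩ Ici y₀)) := by ring
        _ ≤ volume (Set.image2 (fun x y => y - x) (X ∩ Iic y₀) (Y ∩ Ici ξ)) +
              volume (dists (Y ∩ Iic ξ) (X ∩ Ici y₀)) := add_le_add houter hinner
        _ = volume ((Set.image2 (fun x y => y - x) (X ∩ Iic y₀) (Y ∩ Ici ξ)) ∪
              (dists (Y ∩ Iic ξ) (X ∩ Ici y₀))) := (measure_union hdisj hm2).symm
        _ ≤ volume (dists X Y) := measure_mono hsub

/-- If the common minimum of the disjoint compact sets `X`, `Y` is in `X` and their common maximum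
is in `Y` then the set of distances between `X` and `Y` has measure at least `|X| + |Y|`. -/
theorem volume_add_le_dists {X Y : Set ℝ} (hX : IsCompact X) (hY : IsCompact Y)
    (hXY : Disjoint X Y) {m M : ℝ} (hm : m ∈ X) (hM : M ∈ Y) (hmY : ∀ y ∈ Y, m ≤ y)
    (hmX : ∀ x ∈ X, m ≤ x) (hMX : ∀ x ∈ X, x ≤ M) (hMY : ∀ y ∈ Y, y ≤ M) :
    volume X + volume Y ≤ volume (dists X Y) := by
  -- the distances are bounded below by some positive number
  have hc := isCompact_dists hX hY
  obtain ⟨ε, hε, hεm⟩ := hc.exists_isLeast ⟨_, m, hm, M, hM, rfl⟩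
  have hεpos : 0 < ε := by
    obtain ⟨x, hx, y, hy, rfl⟩ := hε
    have hne : x ≠ y := by
      rintro rfl
      exact Set.disjoint_left.1 hXY hx hy
    exact abs_pos.2 (sub_ne_zero.2 hne)
  obtain ⟨k, hk⟩ := exists_nat_ge ((M - m) / ε)
  refine volume_add_le_dists_aux ε hεpos k X Y hX hY ?_ m hm M hM hmY hmX hMX hMY ?_
  · intro x hx y hy
    exact hεm ⟨x, hx, y, hy, rfl⟩
  · rwa [div_le_iff₀ hεpos] at hk

/-- Key inequality: `|X ∪ |X - Y|| ≥ |X| + |Y|` for disjoint compact sets of positive reals whose
smallest element is in `X`. -/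
theorem volume_add_le_union_dists {X Y : Set ℝ} (hX : IsCompact X) (hY : IsCompact Y)
    (hXY : Disjoint X Y) {m : ℝ} (hm : m ∈ X) (hm0 : 0 < m) (hmY : ∀ y ∈ Y, m ≤ y)
    (hmX : ∀ x ∈ X, m ≤ x) :
    volume X + volume Y ≤ volume (X ∪ dists X Y) := by
  rcases Y.eq_empty_or_nonempty with rfl | hYn
  · simp [dists]
  obtain ⟨M, hM, hMm⟩ := hY.exists_isGreatest hYn
  have hX1c : IsCompact (X ∩ Iic M) := hX.inter_right isClosed_Iic
  have hmM : m ≤ M := hmY M hM
  have h1 := volume_add_le_dists hX1c hY (hXY.mono_left inter_subset_left) (m := m) (M := M)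
    ⟨hm, hmM⟩ hM hmY (fun x hx => hmX x hx.1) (fun x hx => hx.2) (fun y hy => hMm hy)
  have hdisj : Disjoint (X ∩ Ici M) (dists (X ∩ Iic M) Y) := by
    rw [Set.disjoint_left]
    rintro z ⟨_, hz⟩ ⟨x, hx, y, hy, rfl⟩
    simp only [mem_Ici] at hz
    have a1 : x ≤ M := hx.2
    have a2 := hMm hy
    have a3 := hmX x hx.1
    have a4 := hmY y hy
    rcases le_total x y with h | h
    · rw [abs_of_nonpos (by linarith)] at hz
      linarith
    · rw [abs_of_nonneg (by linarith)] at hz
      linarith
  have hXle : volume X ≤ volume (X ∩ Ici M) + volume (X ∩ Iic M) := by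
    refine le_trans (measure_mono ?_) (measure_union_le _ _)
    intro x hx
    rcases le_total M x with h | h
    · exact Or.inl ⟨hx, h⟩
    · exact Or.inr ⟨hx, h⟩
  calc volume X + volume Y ≤ (volume (X ∩ Ici M) + volume (X ∩ Iic M)) + volume Y := by gcongr
    _ = volume (X ∩ Ici M) + (volume (X ∩ Iic M) + volume Y) := by ring
    _ ≤ volume (X ∩ Ici M) + volume (dists (X ∩ Iic M) Y) := by gcongr
    _ = volume ((X ∩ Ici M) ∪ dists (X ∩ Iic M) Y) :=
        (measure_union hdisj (isCompact_dists hX1c hY).measurableSet).symm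
    _ ≤ volume (X ∪ dists X Y) := by
        apply measure_mono
        exact union_subset_union inter_subset_left (dists_mono inter_subset_left le_rfl)

end Pool.Agent.Helper11_ProdFree
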