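import Pool.Agent.Helper11_ProdFree.Integral

/-!
# Product-free subsets of the unit interval
-/

namespace Pool.Agent.Helper11_ProdFree

open MeasureTheory Set Topology

/-- The sharp bound for compact product-free sets. -/
theorem compact_bound {K : Set ℝ} (hK : IsCompact K) (hK01 : K ⊆ Ioo 0 1)
    (hpf : ∀ x ∈ K, ∀ y ∈ K, x * y ∉ K) {s : ℝ} (hs : s ∈ K) (hsm : ∀ x ∈ K, x ≤ s) :
    volume K ≤ ENNReal.ofReal (s / (1 + s + s ^ 2)) := by
  have hs0 : 0 < s := (hK01 hs).1
  have hs1 : s < 1 := (hK01 hs).2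
  set B : Set ℝ := (fun x => -Real.log x) '' K with hBdef
  have hBc : IsCompact B := by
    apply hK.image_of_continuousOn
    apply ContinuousOn.neg
    apply Real.continuousOn_log.mono
    intro x hx
    exact (hK01 hx).1.ne'
  have hKB : (fun t => Real.exp (-t)) '' B = K := by
    rw [hBdef, image_image]
    have : ∀ x ∈ K, Real.exp (- -Real.log x) = x := by
      intro x hx
      rw [neg_neg, Real.exp_log (hK01 hx).1]
    ext y
    constructor
    · rintro ⟨x, hx, rfl⟩
      simp only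
      rw [this x hx]
      exact hx
    · intro hy
      exact ⟨y, hy, this y hy⟩
  have hsf : ∀ u ∈ B, ∀ v ∈ B, u + v ∉ B := by
    rintro _ ⟨x, hx, rfl⟩ _ ⟨y, hy, rfl⟩ ⟨z, hz, hxyz⟩
    simp only at hxyz
    apply hpf x hx y hy
    have h1 : Real.log z = Real.log (x * y) := by
      rw [Real.log_mul (hK01 hx).1.ne' (hK01 hy).1.ne']
      linarith
    have h2 : z = x * y := by
      have := congrArg Real.exp h1
      rwa [Real.exp_log (hK01 hz).1, Real.exp_log (mul_pos (hK01 hx).1 (hK01 hy).1)] at this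
    rwa [← h2]
  have hb0 : 0 < -Real.log s := by
    have := Real.log_neg hs0 hs1
    linarith
  have hbm : ∀ x ∈ B, -Real.log s ≤ x := by
    rintro _ ⟨x, hx, rfl⟩
    simp only
    have := Real.log_le_log (hK01 hx).1 (hsm x hx)
    linarith
  have hw := weighted_le hBc hsf (b := -Real.log s) ⟨s, hs, rfl⟩ hb0 hbm
  have hvol : volume K = ∫⁻ x in B, ENNReal.ofReal (Real.exp (-x)) := by
    have h := lintegral_image_eq_lintegral_abs_deriv_mul (s := B)
      (f := fun t => Real.exp (-t)) (f' := fun t => -Real.exp (-t)) hBc.measurableSet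
      (fun x _ => by
        have h1 : HasDerivAt (fun t : ℝ => Real.exp (-t)) (Real.exp (-x) * -1) x :=
          (Real.hasDerivAt_exp (-x)).comp x (hasDerivAt_neg x)
        have h2 : Real.exp (-x) * -1 = -Real.exp (-x) := by ring
        rw [h2] at h1
        exact h1.hasDerivWithinAt)
      (fun x _ y _ hxy => by
        simp only at hxy
        have := Real.exp_injective hxy
        linarith)
      (fun _ => 1)
    rw [hKB] at h
    simp only [lintegral_const, MeasurableSet.univ, Measure.restrict_apply, univ_inter, one_mul,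
      mul_one, abs_neg] at h
    rw [h]
    apply lintegral_congr
    intro x
    rw [abs_of_pos (Real.exp_pos _)]
  rw [← hvol] at hw
  have e1 : Real.exp (-Real.log s) = s⁻¹ := by rw [Real.exp_neg, Real.exp_log hs0]
  have e2 : Real.exp (- -Real.log s) = s := by rw [neg_neg, Real.exp_log hs0]
  rw [e1, e2] at hw
  have hsum : ENNReal.ofReal s⁻¹ + 1 + ENNReal.ofReal s = ENNReal.ofReal (s⁻¹ + 1 + s) := by
    rw [ENNReal.ofReal_add (by positivity) hs0.le, ENNReal.ofReal_add (by positivity) one_pos.le,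
      ENNReal.ofReal_one]
  rw [hsum] at hw
  have hpos : 0 < s⁻¹ + 1 + s := by positivity
  have hdiv : s / (1 + s + s ^ 2) = (s⁻¹ + 1 + s)⁻¹ := by
    field_simp
  rw [hdiv, ENNReal.ofReal_inv_of_pos hpos]
  rw [ENNReal.le_inv_iff_mul_le, mul_comm]
  exact hw

/-- A product-free set of positive measure has no elements close to `1`. -/
theorem exists_lt_one {A : Set ℝ} (hA : A ⊆ Icc 0 1) (hm : NullMeasurableSet A volume)
    (hpf : ∀ x ∈ A, ∀ y ∈ A, x * y ∉ A) (hpos : volume A ≠ 0) :
    ∃ c : ℝ, 0 < c ∧ c < 1 ∧ ∀ x ∈ A, x ≤ c := by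
  have hA01 : A ⊆ Ioo 0 1 := by
    intro x hx
    refine ⟨lt_of_le_of_ne (hA hx).1 ?_, lt_of_le_of_ne (hA hx).2 ?_⟩
    · rintro rfl
      exact hpf 0 hx 0 hx (by simpa using hx)
    · rintro rfl
      exact hpf 1 hx 1 hx (by simpa using hx)
  obtain ⟨A', hA'A, hA'm, hA'e⟩ := hm.exists_measurable_subset_ae_eq
  have hvol : volume A' = volume A := measure_congr hA'e
  have hfin : volume A' ≠ ⊤ := by
    refine ne_top_of_le_ne_top ?_ (measure_mono (hA'A.trans hA))
    rw [Real.volume_Icc]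
    exact ENNReal.ofReal_ne_top
  obtain ⟨K, hKA, hKc, hKpos⟩ := hA'm.exists_lt_isCompact_of_ne_top hfin
    (r := 0) (by rw [hvol]; exact pos_iff_ne_zero.2 hpos)
  have hK01 : K ⊆ Ioo 0 1 := (hKA.trans hA'A).trans hA01
  set L : Set ℝ := (fun x => -Real.log x) '' K with hLdef
  have hLc : IsCompact L := by
    apply hKc.image_of_continuousOn
    apply ContinuousOn.neg
    apply Real.continuousOn_log.mono
    intro x hx
    exact (hK01 hx).1.ne'
  have hLpos : 0 < volume L := by
    rw [pos_iff_ne_zero]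
    intro h0
    have hKL : (fun t => Real.exp (-t)) '' L = K := by
      rw [hLdef, image_image]
      ext y
      constructor
      · rintro ⟨x, hx, rfl⟩
        simp only
        rw [neg_neg, Real.exp_log (hK01 hx).1]
        exact hx
      · intro hy
        exact ⟨y, hy, by simp only; rw [neg_neg, Real.exp_log (hK01 hy).1]⟩
    have := addHaar_image_eq_zero_of_differentiableOn_of_addHaar_eq_zero (volume : Measure ℝ)
      (f := fun t : ℝ => Real.exp (-t)) (s := L) (by fun_prop) h0
    rw [hKL] at this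
    rw [this] at hKpos
    exact lt_irrefl _ hKpos
  have hst := Measure.sub_mem_nhds_zero_of_addHaar_pos (volume : Measure ℝ) L
    hLc.measurableSet hLpos
  rw [Metric.mem_nhds_iff] at hst
  obtain ⟨δ, hδ, hball⟩ := hst
  refine ⟨Real.exp (-δ), Real.exp_pos _, by rw [Real.exp_lt_one_iff]; linarith, ?_⟩
  intro x hx
  by_contra hlt
  rw [not_le] at hlt
  have hx0 := (hA01 hx).1
  have hx1 := (hA01 hx).2
  have hlog : -δ < Real.log x := by
    rw [Real.lt_log_iff_exp_lt hx0]
    exact hlt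
  have hlog2 : Real.log x < 0 := Real.log_neg hx0 hx1
  have hmem : -Real.log x ∈ Metric.ball (0 : ℝ) δ := by
    rw [Metric.mem_ball, dist_zero_right, Real.norm_eq_abs, abs_lt]
    constructor <;> linarith
  obtain ⟨u, ⟨p, hp, rfl⟩, v, ⟨q, hq, rfl⟩, huv⟩ := hball hmem
  simp only at huv
  have hq0 := (hK01 hq).1
  have hp0 := (hK01 hp).1
  have h1 : Real.log p = Real.log (x * q) := by
    rw [Real.log_mul hx0.ne' hq0.ne']
    linarith
  have h2 : p = x * q := by
    have := congrArg Real.exp h1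
    rwa [Real.exp_log hp0, Real.exp_log (mul_pos hx0 hq0)] at this
  apply hpf x hx q (hA'A (hKA hq))
  rw [← h2]
  exact hA'A (hKA hp)

theorem frac_mono {a s : ℝ} (ha : 0 ≤ a) (has : a ≤ s) (hs : s ≤ 1) :
    a / (1 + a + a ^ 2) ≤ s / (1 + s + s ^ 2) := by
  have hs0 : 0 ≤ s := ha.trans has
  rw [div_le_div_iff₀ (by positivity) (by positivity)]
  have h1 : 0 ≤ (s - a) * (1 - a * s) := by
    apply mul_nonneg (by linarith)
    have : a * s ≤ 1 * 1 := mul_le_mul (has.trans hs) hs hs0 (by norm_num)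
    linarith
  nlinarith

theorem frac_lt {s : ℝ} (hs0 : 0 ≤ s) (hs : s < 1) : s / (1 + s + s ^ 2) < 1 / 3 := by
  rw [div_lt_div_iff₀ (by positivity) (by norm_num)]
  nlinarith [sq_nonneg (s - 1), mul_pos (sub_pos.2 hs) (sub_pos.2 hs)]

/-- The sharp bound for measurable product-free sets in terms of an upper bound `s`. -/
theorem measurable_bound {A : Set ℝ} (hA : A ⊆ Icc 0 1) (hm : NullMeasurableSet A volume)
    (hpf : ∀ x ∈ A, ∀ y ∈ A, x * y ∉ A) {s : ℝ} (hs1 : s ≤ 1)
    (hsm : ∀ x ∈ A, x ≤ s) :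
    volume A ≤ ENNReal.ofReal (s / (1 + s + s ^ 2)) := by
  have hA01 : A ⊆ Ioo 0 1 := by
    intro x hx
    refine ⟨lt_of_le_of_ne (hA hx).1 ?_, lt_of_le_of_ne (hA hx).2 ?_⟩
    · rintro rfl
      exact hpf 0 hx 0 hx (by simpa using hx)
    · rintro rfl
      exact hpf 1 hx 1 hx (by simpa using hx)
  obtain ⟨A', hA'A, hA'm, hA'e⟩ := hm.exists_measurable_subset_ae_eq
  have hvol : volume A' = volume A := measure_congr hA'e
  have hfin : volume A' ≠ ⊤ := by
    refine ne_top_of_le_ne_top ?_ (measure_mono (hA'A.trans hA))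
    rw [Real.volume_Icc]
    exact ENNReal.ofReal_ne_top
  rw [← hvol, hA'm.measure_eq_iSup_isCompact_of_ne_top hfin]
  refine iSup_le fun K => iSup_le fun hKA => iSup_le fun hKc => ?_
  rcases K.eq_empty_or_nonempty with rfl | hKn
  · simp
  obtain ⟨a, ha, ham⟩ := hKc.exists_isGreatest hKn
  have hKA2 : K ⊆ A := hKA.trans hA'A
  calc volume K ≤ ENNReal.ofReal (a / (1 + a + a ^ 2)) :=
        compact_bound hKc (hKA2.trans hA01)
          (fun x hx y hy hxy => hpf x (hKA2 hx) y (hKA2 hy) (hKA2 hxy)) ha (fun x hx => ham hx)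
    _ ≤ _ := by
        apply ENNReal.ofReal_le_ofReal
        exact frac_mono (hA01 (hKA2 ha)).1.le (hsm a (hKA2 ha)) hs1

/-- Main theorem for measurable product-free subsets of the unit interval. -/
theorem main {A : Set ℝ} (hA : A ⊆ Icc 0 1) (hm : NullMeasurableSet A volume)
    (hpf : ∀ x ∈ A, ∀ y ∈ A, x * y ∉ A) :
    volume A ≤ ENNReal.ofReal (sSup A / (1 + sSup A + sSup A ^ 2)) ∧ volume A < 1 / 3 := by
  have hbdd : BddAbove A := ⟨1, fun x hx => (hA hx).2⟩
  have hsm : ∀ x ∈ A, x ≤ sSup A := fun x hx => le_csSup hbdd hx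
  have hs1 : sSup A ≤ 1 := by
    rcases A.eq_empty_or_nonempty with rfl | hne
    · simp
    · exact csSup_le hne fun x hx => (hA hx).2
  have hs0 : 0 ≤ sSup A := Real.sSup_nonneg fun x hx => (hA hx).1
  have hb := measurable_bound hA hm hpf hs1 hsm
  refine ⟨hb, ?_⟩
  by_cases h0 : volume A = 0
  · rw [h0]
    simp
  · obtain ⟨c, hc0, hc1, hc⟩ := exists_lt_one hA hm hpf h0
    have hb2 := measurable_bound hA hm hpf hc1.le hc
    refine lt_of_le_of_lt hb2 ?_
    have h3 : (1 / 3 : ENNReal) = ENNReal.ofReal (1 / 3) := by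
      rw [ENNReal.ofReal_div_of_pos (by norm_num)]
      simp
    rw [h3]
    exact (ENNReal.ofReal_lt_ofReal_iff (by norm_num)).2 (frac_lt hc0.le hc1)

end Pool.Agent.Helper11_ProdFree
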