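import Pool.Agent.Helper11_ProdFree.Key

/-!
# The pointwise inequality for compact sum-free sets

For a compact sum-free set `B` of positive reals with minimum `b` and `G x = |B ∩ (-∞, x]|` we
prove `G (n + b) + G n + G (n - b) ≤ n` for every real `n ≥ 0`.
-/

namespace Pool.Agent.Helper11_ProdFree

open MeasureTheory Set

theorem isCompact_shift {B : Set ℝ} (hB : IsCompact B) (a : ℝ) :
    IsCompact ((fun x => x + a) '' B) := hB.image (by fun_prop)

theorem volume_shift {B : Set ℝ} (a : ℝ) : volume ((fun x => x + a) '' B) = volume B := by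
  have h := measure_preimage_add_right (volume : Measure ℝ) a ((fun x => x + a) '' B)
  rw [← h]
  congr 1
  ext x
  simp

/-- The pointwise inequality. -/
theorem pointwise {B : Set ℝ} (hB : IsCompact B) (hsf : ∀ x ∈ B, ∀ y ∈ B, x + y ∉ B)
    {b : ℝ} (hb : b ∈ B) (hb0 : 0 < b) (hbm : ∀ x ∈ B, b ≤ x) (n : ℝ) :
    volume (B ∩ Iic (n + b)) + volume (B ∩ Iic n) + volume (B ∩ Iic (n - b)) ≤
      ENNReal.ofReal n := by
  rcases lt_or_ge n b with hn | hn
  · -- small `n`
    have h1 : B ∩ Iic n = ∅ := by
      ext x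
      simp only [mem_inter_iff, mem_Iic, mem_empty_iff_false, iff_false, not_and, not_le]
      intro hx
      exact lt_of_lt_of_le hn (hbm x hx)
    have h2 : B ∩ Iic (n - b) = ∅ := by
      ext x
      simp only [mem_inter_iff, mem_Iic, mem_empty_iff_false, iff_false, not_and, not_le]
      intro hx
      have := hbm x hx
      linarith
    rw [h1, h2]
    simp only [measure_empty, add_zero]
    calc volume (B ∩ Iic (n + b)) ≤ volume (Icc b (n + b)) := by
          apply measure_mono
          rintro x ⟨hx, hx2⟩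
          exact ⟨hbm x hx, hx2⟩
      _ = ENNReal.ofReal n := by
          rw [Real.volume_Icc]
          congr 1
          ring
  set X : Set ℝ := B ∩ Iic n with hXdef
  set P : Set ℝ := (fun x => x + -b) '' (B ∩ Iic (n + b)) with hPdef
  set Q : Set ℝ := (fun x => x + b) '' (B ∩ Iic (n - b)) with hQdef
  have hXc : IsCompact X := hB.inter_right isClosed_Iic
  have hPc : IsCompact P := isCompact_shift (hB.inter_right isClosed_Iic) _
  have hQc : IsCompact Q := isCompact_shift (hB.inter_right isClosed_Iic) _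
  have hDc : IsCompact (P ∩ Q) := hPc.inter hQc
  have hVX : Disjoint X (P ∪ Q) := by
    rw [Set.disjoint_left]
    rintro x ⟨hx, _⟩ (⟨y, ⟨hy, _⟩, hxy⟩ | ⟨y, ⟨hy, _⟩, hxy⟩)
    · apply hsf x hx b hb
      simp only at hxy
      have : x + b = y := by linarith
      rwa [this]
    · apply hsf y hy b hb
      simp only at hxy
      rwa [hxy]
  have hXD : Disjoint X (P ∩ Q) := hVX.mono_right (inter_subset_left.trans subset_union_left)
  have key := volume_add_le_union_dists hXc hDc hXD (m := b) ⟨hb, hn⟩ hb0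
    (by
      rintro y ⟨_, ⟨z, ⟨hz, _⟩, rfl⟩⟩
      have := hbm z hz
      simp only
      linarith)
    (fun x hx => hbm x hx.1)
  have hCV : Disjoint (X ∪ dists X (P ∩ Q)) (P ∪ Q) := by
    rw [Set.disjoint_union_left]
    refine ⟨hVX, ?_⟩
    rw [Set.disjoint_left]
    rintro z ⟨x, ⟨hx, _⟩, d, ⟨⟨p, ⟨hp, _⟩, hpd⟩, ⟨q, ⟨hq, _⟩, hqd⟩⟩, hz⟩ hzV
    simp only at hpd hqd hz
    rcases hzV with ⟨u, ⟨hu, _⟩, huz⟩ | ⟨u, ⟨hu, _⟩, huz⟩
    · simp only at huz
      rcases abs_cases (x - d) with ⟨h1, _⟩ | ⟨h1, _⟩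
      · -- `x - d = u - b`, `x = q + u`
        apply hsf q hq u hu
        have : q + u = x := by linarith
        rwa [this]
      · -- `d - x = u - b`, `p = u + x`
        apply hsf u hu x hx
        have : u + x = p := by linarith
        rwa [this]
    · simp only at huz
      rcases abs_cases (x - d) with ⟨h1, _⟩ | ⟨h1, _⟩
      · -- `x - d = u + b`, `x = p + u`
        apply hsf p hp u hu
        have : p + u = x := by linarith
        rwa [this]
      · -- `d - x = u + b`, `q = u + x`
        apply hsf u hu x hx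
        have : u + x = q := by linarith
        rwa [this]
  have hCsub : (X ∪ dists X (P ∩ Q)) ∪ (P ∪ Q) ⊆ Icc 0 n := by
    have hX : X ⊆ Icc 0 n := by
      rintro x ⟨hx, hxn⟩
      exact ⟨hb0.le.trans (hbm x hx), hxn⟩
    have hP : P ⊆ Icc 0 n := by
      rintro _ ⟨x, ⟨hx, hxn⟩, rfl⟩
      have := hbm x hx
      simp only [mem_Iic] at hxn
      constructor <;> simp only <;> linarith
    have hQ : Q ⊆ Icc 0 n := by
      rintro _ ⟨x, ⟨hx, hxn⟩, rfl⟩
      have := hbm x hx
      simp only [mem_Iic] at hxn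
      constructor <;> simp only <;> linarith
    refine union_subset (union_subset hX ?_) (union_subset hP hQ)
    rintro _ ⟨x, hx, d, hd, rfl⟩
    have h1 := hX hx
    have h2 := hP hd.1
    refine ⟨abs_nonneg _, ?_⟩
    rw [abs_le]
    constructor <;> linarith [h1.1, h1.2, h2.1, h2.2]
  have hVm : MeasurableSet (P ∪ Q) := (hPc.union hQc).measurableSet
  have hP' : volume P = volume (B ∩ Iic (n + b)) := volume_shift _
  have hQ' : volume Q = volume (B ∩ Iic (n - b)) := volume_shift _
  calc volume (B ∩ Iic (n + b)) + volume X + volume (B ∩ Iic (n - b))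
      = (volume P + volume Q) + volume X := by rw [hP', hQ']; ring
    _ = (volume (P ∪ Q) + volume (P ∩ Q)) + volume X := by
        rw [measure_union_add_inter P hQc.measurableSet]
    _ = (volume X + volume (P ∩ Q)) + volume (P ∪ Q) := by ring
    _ ≤ volume (X ∪ dists X (P ∩ Q)) + volume (P ∪ Q) := by gcongr
    _ = volume ((X ∪ dists X (P ∩ Q)) ∪ (P ∪ Q)) := (measure_union hCV hVm).symm
    _ ≤ volume (Icc 0 n) := measure_mono hCsub
    _ = ENNReal.ofReal n := by rw [Real.volume_Icc, sub_zero]

end Pool.Agent.Helper11_ProdFree
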